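import Pool.Agent.H443Z.HTMain

set_option autoImplicit false

namespace Pool.Agent.Results.MP_57df8f_al.ATransDegree

open Pool.Agent.H443Z.HT

universe u

/-- Q1: the transitivity degree of `PGL(2, F)` for every countably infinite field `F`. -/
theorem result (F : Type u) [Field F] [Countable F] [Infinite F] :
    (AlgebraicOverFp F → td (Matrix.ProjGenLinGroup (Fin 2) F) = 3) ∧
      (¬ AlgebraicOverFp F → td (Matrix.ProjGenLinGroup (Fin 2) F) = ⊤) :=
  td_eq

end Pool.Agent.Results.MP_57df8f_al.ATransDegree
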