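import Pool.Agent.H443Z.HTMain

set_option autoImplicit false

namespace Pool.Agent.Results.MP_57df8f_al.BHighlyTrans

open Pool.Agent.H443Z.HT

universe u

/-- Q2: the countably infinite fields `F` for which `PGL(2, F)` is highly transitive. -/
theorem result (F : Type u) [Field F] [Countable F] [Infinite F] :
    HighlyTransitive (Matrix.ProjGenLinGroup (Fin 2) F) ↔ ¬ AlgebraicOverFp F :=
  ht_iff

end Pool.Agent.Results.MP_57df8f_al.BHighlyTrans
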